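import Pool.Agent.Y41.EV.StmD

/-!
# Project EV: one step of the tree
-/

set_option autoImplicit false

namespace Pool.Agent.Y279.EV

open Pool.Agent.Y41.EV

theorem tree1 : Pool.Agent.Y41.EV.S_TREE1 := by
  intro f η T c0 α w τ ℓ N s t hη hT hN hα hαc hw hℓ hst hc0 hτη hℓη hd hrec hP
  obtain ⟨u, v, h1, h2, h3⟩ := hP
  have hgap : ∀ s' t' : unitInterval, s ≤ s' → s' ≤ t' → t' ≤ t →
      VG f η s' t' (α * (T * ((t' : ℝ) - s') - ℓ)) := by
    intro s' t' a1 a2 a3
    by_cases h : ℓ < T * ((t' : ℝ) - s')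
    · refine (hrec s' t' a1 a2 a3 h).le ?_
      have := mul_nonneg hα hℓ.le
      nlinarith
    · refine (VG.triv f hη a2).le ?_
      exact mul_nonpos_of_nonneg_of_nonpos hα (by linarith)
  have hτ0 : 0 ≤ τ := by
    have h4 := (h3 ⟨0, by omega⟩).2
    have h5 : ((u ⟨0, by omega⟩ : unitInterval) : ℝ) ≤ v ⟨0, by omega⟩ := (h1 ⟨0, by omega⟩).2.1
    exact (mul_nonneg hT.le (by linarith)).trans h4
  have key : ∀ k : ℕ, k ≤ N → ∃ e : unitInterval, s ≤ e ∧ e ≤ t ∧
      (∀ b : Fin N, k ≤ (b : ℕ) → e ≤ u b) ∧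
      VG f η s e (k * psi w + α * (T * ((e : ℝ) - s) - k * τ - k * ℓ)) := by
    intro k
    induction k with
    | zero =>
      intro _
      refine ⟨s, le_rfl, hst, fun b _ => (h1 b).1, ?_⟩
      refine (VG.refl f η s).le ?_
      simp
    | succ k ih =>
      intro hk
      obtain ⟨e, e1, e2, e3, e4⟩ := ih (by omega)
      obtain ⟨b, hb⟩ : ∃ b : Fin N, (b : ℕ) = k := ⟨⟨k, by omega⟩, rfl⟩
      have g1 := e3 b (by omega)
      have g2 := hgap e (u b) e1 g1 ((h1 b).2.1.trans (h1 b).2.2)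
      have hT3 := (h3 b).2
      have huv : ((u b : unitInterval) : ℝ) ≤ v b := (h1 b).2.1
      have hη' : ((v b : unitInterval) : ℝ) - u b ≤ η := by
        have : T * (((v b : unitInterval) : ℝ) - u b) ≤ T * η := by linarith
        exact le_of_mul_le_mul_left this hT
      have g3 : VG f η (u b) (v b) (psi w) := by
        refine (VG.single (h1 b).2.1 hη').le ?_
        refine psi_mono hw.le (h3 b).1 (hd _ _ ?_)
        rw [abs_sub_comm, abs_of_nonneg (by linarith)]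
        exact hη'
      refine ⟨v b, (h1 b).1.trans (h1 b).2.1, (h1 b).2.2, ?_, ?_⟩
      · intro b' hb'
        exact h2 b b' (by rw [Fin.lt_def]; omega)
      · refine ((e4.add g2).add g3).le ?_
        have : α * (T * (((v b : unitInterval) : ℝ) - u b)) ≤ α * τ :=
          mul_le_mul_of_nonneg_left hT3 hα
        push_cast
        nlinarith
  obtain ⟨e, e1, e2, -, e4⟩ := key N le_rfl
  refine (e4.add (hgap e t e1 e2 le_rfl)).le ?_
  have hN' : (1 : ℝ) ≤ N := by exact_mod_cast hN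
  have a1 : α * (N * τ + (N + 1) * ℓ) ≤ c0 * (N * τ + (N + 1) * ℓ) :=
    mul_le_mul_of_nonneg_right hαc (by positivity)
  have hc0' : 0 ≤ c0 := hα.trans hαc
  have a2 : c0 * (N * τ + (N + 1) * ℓ) ≤ c0 * (N * τ + (2 * N) * ℓ) := by
    refine mul_le_mul_of_nonneg_left ?_ hc0'
    nlinarith
  have a3 : c0 * (N * τ + (2 * N) * ℓ) = N * (c0 * (2 * τ + 4 * ℓ)) / 2 := by ring
  have a4 : N * (c0 * (2 * τ + 4 * ℓ)) / 2 ≤ N * psi w / 2 := by
    have := mul_le_mul_of_nonneg_left hc0 (by linarith : (0 : ℝ) ≤ N)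
    linarith
  nlinarith

end Pool.Agent.Y279.EV
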